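import Pool.Agent.Lib.MP_95e9b3_coG.FinalX

/-!
MP_95e9b3_co (short cycle covers): every finite bridgeless graph has a cycle cover of total length
at most `(5/3 - 10^(-14)) |E|`.
-/

namespace Pool.Agent.Results.MP_95e9b3_co.BelowFiveThirds

theorem result (V : Type) [Fintype V] (G : SimpleGraph V)
    (h : ∀ v w : V, G.Adj v w → (G.deleteEdges {s(v, w)}).Reachable v w) :
    ∃ L : List (Σ v : V, G.Walk v v),
      (∀ C ∈ L, C.2.IsCycle) ∧
      (∀ e ∈ G.edgeSet, ∃ C ∈ L, e ∈ C.2.edges) ∧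
      (((L.map (fun C => C.2.length)).sum : ℕ) : ℝ) ≤
        (5 / 3 - 1 / 10 ^ 14) * (Nat.card G.edgeSet : ℝ) :=
  Pool.Agent.Lib.MP_95e9b3_coG.finalX V G h

end Pool.Agent.Results.MP_95e9b3_co.BelowFiveThirds
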