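import Pool.Agent.Lib.MP_95e9b3_coC.CsD

/-!
MP_95e9b3_co (short cycle covers): subdivisions of cyclically 6-edge-connected cubic graphs. Every finite
bridgeless graph of maximum degree at most three, in which every edge cut separating two cycles has at least
six edges, has a cycle cover of total length at most `(59/36)|E|`.
-/

namespace Pool.Agent.Results.MP_95e9b3_co.CyclicSix

theorem result :
    ∀ (V : Type) [Fintype V] (G : SimpleGraph V),
      (∀ v : V, Nat.card (G.neighborSet v) ≤ 3) →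
      (∀ v w : V, G.Adj v w → (G.deleteEdges {s(v, w)}).Reachable v w) →
      (∀ (U : Set V) (a b : V) (p : G.Walk a a) (q : G.Walk b b), p.IsCycle → q.IsCycle →
        (∀ x ∈ p.support, x ∈ U) → (∀ x ∈ q.support, x ∉ U) →
        6 ≤ Nat.card {e : V × V // G.Adj e.1 e.2 ∧ e.1 ∈ U ∧ e.2 ∉ U}) →
      ∃ L : List (Σ v : V, G.Walk v v),
        (∀ c ∈ L, c.2.IsCycle) ∧
        (∀ e ∈ G.edgeSet, ∃ c ∈ L, e ∈ c.2.edges) ∧
        36 * (L.map (fun c => c.2.length)).sum ≤ 59 * Nat.card G.edgeSet :=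
  fun V _ G hd h h6 => Pool.Agent.Lib.MP_95e9b3_coC.csd_final V G hd h h6

end Pool.Agent.Results.MP_95e9b3_co.CyclicSix
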